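import Pool.Agent.L0h77.MO.Stm

/-! Project MO: module RAT, a chain of roots gives a copy of the rational numbers -/

set_option autoImplicit false
set_option maxHeartbeats 400000

namespace Pool.Agent.L0h90.MO

open Pool.Agent.L0h77.MO

/-- the chain of roots -/
def chain {T : Type} (g : ℕ → T → T) (a : T) : ℕ → T
  | 0 => a
  | i + 1 => g i (chain g a i)

theorem t_RAT : S_RAT := by
  intro G _ P h a ha hinf
  have h' : ∀ (i : ℕ) (b : {b : G // P b}), ∃ (b' : {b : G // P b}) (k : ℕ), 0 < k ∧ (i + 1) ∣ k ∧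
      b'.1 ^ k = b.1 := by
    rintro i ⟨b, hb⟩
    obtain ⟨b', k, h1, h2, h3, h4⟩ := h b hb (i + 1) (Nat.succ_pos i)
    exact ⟨⟨b', h1⟩, k, h2, h3, h4⟩
  choose g κ hκ hdvd hroot using h'
  set s : ℕ → {b : G // P b} := chain g ⟨a, ha⟩ with hs
  set b : ℕ → G := fun i => (s i).1 with hb
  set N : ℕ → ℕ := fun i => ∏ l ∈ Finset.range i, κ l (s l) with hN
  have hb0 : b 0 = a := rfl
  have hN0 : N 0 = 1 := rfl
  have hNs : ∀ i, N (i + 1) = N i * κ i (s i) := fun i => Finset.prod_range_succ _ _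
  have hbs : ∀ i, b (i + 1) ^ κ i (s i) = b i := fun i => hroot i (s i)
  have hNpos : ∀ i, 0 < N i := by
    intro i
    induction i with
    | zero => rw [hN0]; exact one_pos
    | succ i ih => rw [hNs]; exact Nat.mul_pos ih (hκ _ _)
  have hfac : ∀ i, i.factorial ∣ N i := by
    intro i
    induction i with
    | zero => rw [hN0]; exact one_dvd _
    | succ i ih =>
      rw [hNs, Nat.factorial_succ, mul_comm]
      exact Nat.mul_dvd_mul ih (hdvd i (s i))
  have hstep : ∀ i d, ∃ M : ℕ, N (i + d) = N i * M ∧ b (i + d) ^ M = b i := by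
    intro i d
    induction d with
    | zero => exact ⟨1, by simp, by simp⟩
    | succ d ih =>
      obtain ⟨M, h1, h2⟩ := ih
      refine ⟨κ (i + d) (s (i + d)) * M, ?_, ?_⟩
      · rw [← add_assoc, hNs, h1]; ring
      · rw [← add_assoc, pow_mul, hbs, h2]
  -- the values do not depend on the index
  have hkey : ∀ (q : ℚ) (i j : ℕ) (y z : ℤ), (y : ℚ) = q * N i → (z : ℚ) = q * N j → b i ^ y = b j ^ z := by
    intro q i j y z hy hz
    obtain ⟨M1, h1, h2⟩ := hstep i j
    obtain ⟨M2, h3, h4⟩ := hstep j i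
    rw [add_comm j i] at h3 h4
    rw [← h2, ← h4, ← zpow_natCast, ← zpow_mul, ← zpow_natCast, ← zpow_mul]
    congr 1
    have e1 : ((M1 : ℤ) * y : ℤ) = ((M2 : ℤ) * z : ℤ) := by
      have e2 : (((M1 : ℤ) * y : ℤ) : ℚ) = (((M2 : ℤ) * z : ℤ) : ℚ) := by
        push_cast
        rw [hy, hz]
        have e3 : (N (i + j) : ℚ) = N i * M1 := by rw [h1]; push_cast; ring
        have e4 : (N (i + j) : ℚ) = N j * M2 := by rw [h3]; push_cast; ring
        calc (M1 : ℚ) * (q * N i) = q * (N i * M1) := by ring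
          _ = q * (N j * M2) := by rw [← e3, e4]
          _ = (M2 : ℚ) * (q * N j) := by ring
      exact_mod_cast e2
    exact e1
  have hex : ∀ (q : ℚ) (i : ℕ), q.den ≤ i → ∃ z : ℤ, (z : ℚ) = q * N i := by
    intro q i hi
    have hd : q.den ∣ N i := (Nat.dvd_factorial q.pos hi).trans (hfac i)
    obtain ⟨c, hc⟩ := hd
    refine ⟨q.num * c, ?_⟩
    rw [hc]
    push_cast
    have : (q.num : ℚ) = q * q.den := (Rat.mul_den_eq_num q).symm
    rw [this]; ring
  have hex' : ∀ q : ℚ, ∃ z : ℤ, (z : ℚ) = q * N q.den := fun q => hex q _ le_rfl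
  choose e he using hex'
  have hval : ∀ (q : ℚ) (i : ℕ) (z : ℤ), (z : ℚ) = q * N i → b q.den ^ e q = b i ^ z :=
    fun q i z hz => hkey q _ _ _ _ (he q) hz
  have hzp : ∀ z : ℤ, a ^ z = 1 → z = 0 := by
    intro z hz
    by_contra hne
    have h1 : 0 < z.natAbs := Int.natAbs_pos.2 hne
    apply hinf _ h1
    rcases Int.natAbs_eq z with h2 | h2
    · rw [h2, zpow_natCast] at hz
      exact hz
    · rw [h2, zpow_neg, zpow_natCast, inv_eq_one] at hz
      exact hz
  refine ⟨MonoidHom.mk' (fun q => b (Multiplicative.toAdd q).den ^ e (Multiplicative.toAdd q)) ?_, ?_, ?_⟩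
  · intro q r
    set q' : ℚ := Multiplicative.toAdd q with hq
    set r' : ℚ := Multiplicative.toAdd r with hr
    obtain ⟨y, hy⟩ := hex q' (max q'.den r'.den) (le_max_left _ _)
    obtain ⟨z, hz⟩ := hex r' (max q'.den r'.den) (le_max_right _ _)
    have h1 := hval (q' + r') (max q'.den r'.den) (y + z) (by push_cast; rw [hy, hz]; ring)
    have h2 := hval q' _ y hy
    have h3 := hval r' _ z hz
    rw [toAdd_mul, h2, h3, ← zpow_add]
    exact h1
  · rw [injective_iff_map_eq_one]
    intro q hq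
    set q' : ℚ := Multiplicative.toAdd q with hq'
    have h1 : b q'.den ^ e q' = 1 := hq
    obtain ⟨M, h2, h3⟩ := hstep 0 q'.den
    rw [zero_add] at h2 h3
    have h4 : a ^ (e q') = 1 := by
      rw [← hb0, ← h3, ← zpow_natCast, ← zpow_mul, mul_comm, zpow_mul, h1, one_zpow]
    have h5 := hzp _ h4
    have h6 := he q'
    rw [h5] at h6
    have h7 : q' = 0 := by
      have hN' : (N q'.den : ℚ) ≠ 0 := by
        have := hNpos q'.den
        positivity
      have h8 : q' * N q'.den = 0 := by rw [← h6]; simp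
      rcases mul_eq_zero.1 h8 with h9 | h9
      · exact h9
      · exact absurd h9 hN'
    exact Multiplicative.toAdd.injective (by rw [← hq', h7]; rfl)
  · have h1 := hval 1 0 1 (by rw [hN0]; norm_num)
    rw [zpow_one, hb0] at h1
    exact h1

end Pool.Agent.L0h90.MO
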